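import Pool.Agent.Zk94.IG.Main1
import Pool.Agent.Zk94.IG.Gen

/-!
# MP_6c8412_lc, Q1: yes

The group von Neumann algebras of any two infinitely generic groups are elementarily equivalent.
-/

namespace Pool.Agent.Results.MP_6c8412_lc.AllInfGeneric

open Pool.Agent.R283.GV
open Pool.Agent.Zk94.IG

/-- For all infinitely generic groups `G` and `H`, `L(G)` and `L(H)` are elementarily
equivalent. -/
theorem result (G H : Type) [Group G] [Group H] (hG : IsInfGeneric G) (hH : IsInfGeneric H) :
    (groupL G).ElemEq (groupL H) := by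
  rw [groupL_eq, groupL_eq]
  exact elemEq_of_EQ (ec_of_ig hG) (ec_of_ig hH) (EQ_infGeneric hG hH)

end Pool.Agent.Results.MP_6c8412_lc.AllInfGeneric
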